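import Pool.Agent.W863.SH.Core
import Pool.Agent.W623.SecH.Stm2

/-!
# SH-PLACEKT: the places of the algebraic closure of `K(t)` above the finite places of the line
-/

set_option autoImplicit false

namespace Pool.Agent.W863.SH

open Polynomial Pool.Agent.W623.SecC Pool.Agent.W623.SecD Pool.Agent.W623.SecF
  Pool.Agent.W623.SecH

universe u w

/-- algebraic elements over a subfield of a valuation ring are in the valuation ring -/
theorem alg_mem {K : Type*} {kb : Type*} [Field K] [Field kb] [Algebra K kb]
    (V : ValuationSubring kb) (h : ∀ c : K, algebraMap K kb c ∈ V) (a : kb)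
    (ha : IsAlgebraic K a) : a ∈ V := by
  let κ : K →+* V := (algebraMap K kb).codRestrict V.toSubring h
  have hint : IsIntegral K a := ha.isIntegral
  have h1 : IsIntegral V a := by
    refine ⟨(minpoly K a).map κ, (minpoly.monic hint).map κ, ?_⟩
    rw [eval₂_map]
    have h2 : (algebraMap V kb).comp κ = algebraMap K kb := by
      ext c
      rfl
    rw [h2]
    exact minpoly.aeval K a
  obtain ⟨y, hy⟩ := IsIntegrallyClosed.isIntegral_iff.1 h1
  rw [← hy]
  exact y.2

theorem placekt : PLACEKT.{u, w} := by
  intro K k kb _ _ _ _ _ _ _ _ _ t ht htop hfg f hf α hα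
  classical
  obtain ⟨s0, hs0⟩ := hfg
  have hFVK : FV K := FV.of_fg s0 hs0
  have : CharZero kb := charZero_of_injective_algebraMap (algebraMap K kb).injective
  have hαint : IsIntegral K α := hα.isIntegral
  set p := minpoly K α with hp
  have hpirr : Irreducible p := minpoly.irreducible hαint
  have hfact : Fact (Irreducible p) := ⟨hpirr⟩
  have hp0 : aeval α p = 0 := minpoly.aeval K α
  set k₁ : IntermediateField k kb := IntermediateField.adjoin k {α} with hk₁
  let α₁ : k₁ := ⟨α, IntermediateField.mem_adjoin_simple_self k α⟩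
  have hKk : IsScalarTower K k₁ kb := IsScalarTower.of_algebraMap_eq (fun _ => rfl)
  have hroot : p.eval₂ (algebraMap K k₁) α₁ = 0 := by
    apply (algebraMap k₁ kb).injective
    rw [hom_eval₂, map_zero, ← IsScalarTower.algebraMap_eq K k₁ kb]
    exact hp0
  let j : AdjoinRoot p →+* k₁ := AdjoinRoot.lift (algebraMap K k₁) α₁ hroot
  let _ : Algebra (AdjoinRoot p) k₁ := j.toAlgebra
  have halg : ∀ x, algebraMap (AdjoinRoot p) k₁ x = j x := fun _ => rfl
  have hjof : ∀ c : K, algebraMap (AdjoinRoot p) k₁ (algebraMap K (AdjoinRoot p) c) =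
      algebraMap K k₁ c := fun c => AdjoinRoot.lift_of hroot
  have hjroot : algebraMap (AdjoinRoot p) k₁ (AdjoinRoot.root p) = α₁ :=
    AdjoinRoot.lift_root hroot
  have htower : IsScalarTower K (AdjoinRoot p) k₁ :=
    IsScalarTower.of_algebraMap_eq fun c => (hjof c).symm
  have hfd : FiniteDimensional K (AdjoinRoot p) :=
    (AdjoinRoot.powerBasis hpirr.ne_zero).finite
  have hchar : CharZero (AdjoinRoot p) :=
    charZero_of_injective_algebraMap (algebraMap K (AdjoinRoot p)).injective
  have hFV₁ : FV (AdjoinRoot p) := hFVK.alg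
  have hclosed : IsAlgClosed kb := IsAlgClosure.isAlgClosed k
  have halgk : Algebra.IsAlgebraic k kb := IsAlgClosure.isAlgebraic
  have hac : IsAlgClosure k₁ kb := ⟨hclosed, Algebra.IsAlgebraic.tower_top (K := k) k₁⟩
  set t₁ : k₁ := algebraMap k k₁ t with ht₁
  set s : k₁ := t₁ - α₁ with hs
  have hα₁alg : IsAlgebraic K α₁ := by
    rw [← isAlgebraic_algebraMap_iff (A := kb) (algebraMap k₁ kb).injective]
    exact hα
  have hst : Transcendental (AdjoinRoot p) s := by
    intro h
    have h1 : IsAlgebraic K s := h.restrictScalars K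
    have h2 : IsAlgebraic K t₁ := by
      have h3 := h1.add hα₁alg
      rwa [hs, sub_add_cancel] at h3
    apply ht
    rw [ht₁] at h2
    exact (isAlgebraic_algebraMap_iff (algebraMap k k₁).injective).1 h2
  have hsum : t₁ = s + algebraMap (AdjoinRoot p) k₁ (AdjoinRoot.root p) := by
    rw [hjroot, hs, sub_add_cancel]
  have hstop : IntermediateField.adjoin (AdjoinRoot p) {s} =
      (⊤ : IntermediateField (AdjoinRoot p) k₁) := by
    set E := IntermediateField.adjoin (AdjoinRoot p) {s} with hE
    have hsE : s ∈ E := IntermediateField.mem_adjoin_simple_self _ s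
    have htE : t₁ ∈ E := by
      rw [hsum]
      exact E.add_mem hsE (E.algebraMap_mem _)
    have hk : ∀ x : k, algebraMap k k₁ x ∈ E := by
      intro x
      let T : IntermediateField K k := (E.toSubfield.comap (algebraMap k k₁)).toIntermediateField
        (fun c => by
          change algebraMap k k₁ (algebraMap K k c) ∈ E
          rw [← IsScalarTower.algebraMap_apply K k k₁, ← hjof]
          exact E.algebraMap_mem _)
      have h1 : IntermediateField.adjoin K {t} ≤ T := by
        rw [IntermediateField.adjoin_le_iff, Set.singleton_subset_iff]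
        exact htE
      rw [htop] at h1
      exact h1 (IntermediateField.mem_top (x := x))
    rw [eq_top_iff]
    intro z _
    let T' : IntermediateField k kb := (E.toSubfield.map (algebraMap k₁ kb)).toIntermediateField
      (fun x => ⟨algebraMap k k₁ x, hk x, rfl⟩)
    have h1 : IntermediateField.adjoin k {α} ≤ T' := by
      rw [IntermediateField.adjoin_le_iff, Set.singleton_subset_iff]
      refine ⟨α₁, ?_, rfl⟩
      change α₁ ∈ E
      rw [← hjroot]
      exact E.algebraMap_mem _
    obtain ⟨e, he, hez⟩ := h1 z.2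
    have h2 : e = z := Subtype.ext hez
    rw [← h2]
    exact he
  obtain ⟨V, V', φ, q, hVV, h2, hφV, hφV', hq, hφq, hroots, hconst, hsn, hun⟩ :=
    place_core (kb := kb) s hst hstop hFV₁ (f.map (algebraMap K (AdjoinRoot p))) hf.map
  have hcomp : (((algebraMap k₁ kb).comp (algebraMap (AdjoinRoot p) k₁)).comp
      (algebraMap K (AdjoinRoot p))) = algebraMap K kb := by
    ext c
    change algebraMap k₁ kb (algebraMap (AdjoinRoot p) k₁ (algebraMap K (AdjoinRoot p) c)) = _
    rw [hjof, ← IsScalarTower.algebraMap_apply K k₁ kb]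
  have hKV : ∀ c : K, algebraMap K kb c ∈ V := by
    intro c
    rw [← hcomp]
    exact hconst _
  have hs0' : s ≠ 0 := by
    intro h
    rw [h] at hst
    exact hst isAlgebraic_zero
  have hskb : algebraMap k₁ kb s = algebraMap k kb t - α := by
    rw [hs, map_sub]
    rfl
  refine ⟨V, V', φ.restrictScalars k, q, aeval t p, hVV, h2, hφV, hφV', hq, hφq, ?_,
    alg_mem V hKV, ?_, ?_, ?_⟩
  · intro θ θ' h1 h3 hne
    refine hroots θ θ' ?_ ?_ hne
    · rw [Polynomial.map_map, hcomp, eval_map]
      exact h1
    · rw [Polynomial.map_map, hcomp, eval_map]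
      exact h3
  · rw [← hskb]
    exact hsn
  · set r := AdjoinRoot.root p with hr
    set p₁ := p.map (algebraMap K (AdjoinRoot p)) with hp₁
    have hr0 : p₁.eval r = 0 := by
      rw [hp₁, eval_map]
      exact AdjoinRoot.eval₂_root p
    obtain ⟨p₂, hp₂⟩ := dvd_iff_isRoot.2 hr0
    have hsep : p₁.Separable := (hpirr.separable).map
    have hp₂r : p₂.eval r ≠ 0 := by
      intro h
      obtain ⟨a, b, hab⟩ := hsep
      have h1 := congrArg (fun P => P.eval r) hab
      simp only [eval_add, eval_mul, eval_one, hr0, mul_zero, zero_add] at h1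
      rw [hp₂, derivative_mul] at h1
      simp [h] at h1
    set Q := p₂.comp (X + C r) with hQ
    have hQ0 : Q.eval 0 ≠ 0 := by
      rw [hQ, eval_comp, eval_add, eval_X, eval_C, zero_add]
      exact hp₂r
    have hQs : aeval s Q = aeval t₁ p₂ := by
      rw [hQ, aeval_comp, map_add, aeval_X, aeval_C, ← hsum]
    have h5 : algebraMap k k₁ (aeval t p) = s * aeval s Q := by
      have h6 : aeval t₁ p₁ = algebraMap k k₁ (aeval t p) := by
        rw [hp₁, aeval_map_algebraMap, ht₁, aeval_algebraMap_apply]
      rw [← h6, hp₂, map_mul, hQs, map_sub, aeval_X, aeval_C, hr, hjroot]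
    have h7 : algebraMap k kb (aeval t p) = algebraMap k₁ kb s * algebraMap k₁ kb (aeval s Q) := by
      rw [← map_mul, ← h5, ← IsScalarTower.algebraMap_apply k k₁ kb]
    have h8 : algebraMap k kb (aeval t p) / (algebraMap k kb t - α) =
        algebraMap k₁ kb (aeval s Q) := by
      rw [h7, ← hskb, mul_div_cancel_left₀]
      rwa [Ne, map_eq_zero_iff _ (algebraMap k₁ kb).injective]
    rw [h8]
    exact hun Q hQ0
  · intro h
    have h1 : p = X := by rw [hp, h, minpoly.zero]
    rw [h1, aeval_X]

end Pool.Agent.W863.SH
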