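import Pool.Agent.W623.SecF.Fg
import Pool.Agent.W623.SecF.FV
import Pool.Agent.W623.SecF.Kt

/-!
# SH-PLACEKT, first part: places of the algebraic closure of `K(s)` above `s = 0`
-/

set_option autoImplicit false

namespace Pool.Agent.W863.SH

open Polynomial Pool.Agent.W623.SecC Pool.Agent.W623.SecD Pool.Agent.W623.SecF

universe w

theorem place_core {K₁ : Type} {k₁ kb : Type w} [Field K₁] [CharZero K₁] [Field k₁] [Field kb]
    [Algebra K₁ k₁] [Algebra k₁ kb] [IsAlgClosure k₁ kb] (s : k₁) (hs : Transcendental K₁ s)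
    (htop : IntermediateField.adjoin K₁ {s} = (⊤ : IntermediateField K₁ k₁)) (hFV : FV K₁)
    (f : K₁[X]) (hf : f.Separable) :
    ∃ (V V' : ValuationSubring kb) (φ : kb ≃ₐ[k₁] kb) (q : ℕ),
      V' ≤ V ∧ (2 : kb)⁻¹ ∈ V' ∧ (∀ x, φ x ∈ V ↔ x ∈ V) ∧ (∀ x, φ x ∈ V' ↔ x ∈ V') ∧ 2 ≤ q ∧
      (∀ x ∈ V', φ x - x ^ q ∈ V'.nonunits) ∧
      (∀ θ θ' : kb, (f.map ((algebraMap k₁ kb).comp (algebraMap K₁ k₁))).eval θ = 0 →
        (f.map ((algebraMap k₁ kb).comp (algebraMap K₁ k₁))).eval θ' = 0 → θ ≠ θ' →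
        IsU V' (θ - θ')) ∧
      (∀ c : K₁, algebraMap k₁ kb (algebraMap K₁ k₁ c) ∈ V) ∧
      algebraMap k₁ kb s ∈ V.nonunits ∧
      (∀ p : K₁[X], p.eval 0 ≠ 0 → IsU V (algebraMap k₁ kb (aeval s p))) := by
  classical
  have : CharZero k₁ := charZero_of_injective_algebraMap (algebraMap K₁ k₁).injective
  have : CharZero kb := charZero_of_injective_algebraMap (algebraMap k₁ kb).injective
  have : IsAlgClosed kb := IsAlgClosure.isAlgClosed k₁
  obtain ⟨A, hAdvr, ρ, i, hρ, hρi, hi, hX, hunit⟩ := exists_dvr s hs htop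
  set ic : K₁ →+* A := i.comp C with hic
  set F : A[X] := f.map ic with hF
  have hρic : ρ.comp ic = RingHom.id K₁ := by
    ext c
    change ρ (i (C c)) = c
    rw [hρi, eval_C]
  have hFρ : F.map ρ = f := by rw [hF, Polynomial.map_map, hρic, Polynomial.map_id]
  have hf0 : f ≠ 0 := hf.ne_zero
  have hlcF : F.leadingCoeff = ic f.leadingCoeff := leadingCoeff_map_of_injective ic.injective f
  have hlc : IsUnit F.leadingCoeff := by
    rw [hlcF]
    exact (IsUnit.mk0 _ (leadingCoeff_ne_zero.2 hf0)).map ic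
  obtain ⟨O, hOA, g, hg, hfin, h2, hlcg, hdeg, hsg⟩ := exists_O' A ρ hρ F hlc
    (by rw [hFρ]; exact hf) two_ne_zero (fun S => by
      obtain ⟨B, hB, hS⟩ := hFV (insert 2⁻¹ S)
      exact ⟨B, hB, hS _ (Finset.mem_insert_self _ _), fun x hx => hS x (Finset.mem_insert_of_mem hx)⟩)
  let _ : Algebra O kb := ((algebraMap k₁ kb).comp (algebraMap O k₁)).toAlgebra
  have hst : IsScalarTower O k₁ kb := IsScalarTower.of_algebraMap_eq (fun _ => rfl)
  let _ : Algebra A kb := ((algebraMap k₁ kb).comp (algebraMap A k₁)).toAlgebra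
  have hstA : IsScalarTower A k₁ kb := IsScalarTower.of_algebraMap_eq (fun _ => rfl)
  obtain ⟨V', φ, hVa', hVm', hφV', hφq⟩ := partB1b O k₁ kb
  set q := Nat.card (IsLocalRing.ResidueField O) with hq
  have hq2 : 2 ≤ q := by
    have := Fintype.ofFinite (IsLocalRing.ResidueField O)
    rw [hq, Nat.card_eq_fintype_card]
    exact Fintype.one_lt_card
  have hV'k : ∀ a ∈ O, algebraMap k₁ kb a ∈ V' := fun a ha => hVa' ⟨a, ha⟩
  have hm'k : ∀ a ∈ O.nonunits, algebraMap k₁ kb a ∈ V'.nonunits := by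
    intro a ha
    rw [ValuationSubring.mem_nonunits_iff_exists_mem_maximalIdeal] at ha
    obtain ⟨h1, h2⟩ := ha
    exact hVm' _ h2
  set V := overV O A V' hV'k with hVdef
  have hVV : V' ≤ V := le_over O A V' hV'k
  have hφV : ∀ x, φ x ∈ V ↔ x ∈ V := over_stable O A V' hV'k φ hφV'
  have hVA : ∀ a : A, algebraMap A kb a ∈ V := fun a => map_mem_over O A V' hV'k a.2
  have hVAm : ∀ a ∈ IsLocalRing.maximalIdeal A, algebraMap A kb a ∈ V.nonunits :=
    fun a ha => map_nonunit_over O A hOA V' hV'k hm'k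
      ((ValuationSubring.coe_mem_nonunits_iff).2 ha)
  have hunitA : ∀ b : A, IsUnit b → IsU V (algebraMap A kb b) := by
    rintro b ⟨b, rfl⟩
    refine ⟨(b.isUnit.map (algebraMap A kb)).ne_zero, hVA _, ?_⟩
    have h1 : (algebraMap A kb (b : A))⁻¹ = algebraMap A kb ((b⁻¹ : Aˣ) : A) := by
      refine inv_eq_of_mul_eq_one_right ?_
      rw [← map_mul, Units.mul_inv, map_one]
    rw [h1]
    exact hVA _
  have hunit' : ∀ b : O, IsUnit b → IsU V' (algebraMap O kb b) := by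
    rintro b ⟨b, rfl⟩
    refine ⟨(b.isUnit.map (algebraMap O kb)).ne_zero, hVa' _, ?_⟩
    have h1 : (algebraMap O kb (b : O))⁻¹ = algebraMap O kb ((b⁻¹ : Oˣ) : O) := by
      refine inv_eq_of_mul_eq_one_right ?_
      rw [← map_mul, Units.mul_inv, map_one]
    rw [h1]
    exact hVa' _
  have h2V : (2 : kb)⁻¹ ∈ V' := by
    have h1 := (hunit' 2 h2).2.2
    rwa [map_ofNat] at h1
  obtain ⟨hnd, hdist⟩ := roots_distinct V' hVa' hVm' g hlcg hsg
  have hcoe : ∀ c : K₁, ((ic c : A) : k₁) = algebraMap K₁ k₁ c := by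
    intro c
    change ((i (C c) : A) : k₁) = _
    rw [hi, aeval_C]
  have hgk : g.map (algebraMap O kb) = f.map ((algebraMap k₁ kb).comp (algebraMap K₁ k₁)) := by
    have h1 : (algebraMap A kb).comp (ValuationSubring.inclusion O A hOA) = algebraMap O kb := by
      ext b
      rfl
    rw [← h1, ← Polynomial.map_map, hg, hF, Polynomial.map_map]
    congr 1
    ext c
    change algebraMap k₁ kb ((ic c : A) : k₁) = _
    rw [hcoe]
    rfl
  have hg0 : g.map (algebraMap O kb) ≠ 0 := by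
    rw [hgk]
    exact (Polynomial.map_ne_zero_iff
      ((algebraMap k₁ kb).comp (algebraMap K₁ k₁)).injective).2 hf0
  refine ⟨V, V', φ, q, hVV, h2V, hφV, hφV', hq2, hφq, ?_, ?_, ?_, ?_⟩
  · intro θ θ' h1 h2 hne
    refine hdist θ ?_ θ' ?_ hne
    · rw [mem_roots hg0, IsRoot.def, hgk, h1]
    · rw [mem_roots hg0, IsRoot.def, hgk, h2]
  · intro c
    rw [← hcoe]
    exact hVA _
  · have h1 : ((i X : A) : k₁) = s := by rw [hi, aeval_X]
    have h3 := hVAm (i X) (by
      rw [hX.maximalIdeal_eq]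
      exact Ideal.mem_span_singleton_self _)
    have h4 : algebraMap A kb (i X) = algebraMap k₁ kb ((i X : A) : k₁) := rfl
    rw [h4, h1] at h3
    exact h3
  · intro p hp
    have h3 := hunitA _ (hunit p hp)
    have h4 : algebraMap A kb (i p) = algebraMap k₁ kb ((i p : A) : k₁) := rfl
    rw [h4, hi] at h3
    exact h3

end Pool.Agent.W863.SH
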